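import Pool.Agent.CMG.Stmts

/-!
# Squad CMG (MP_005a41_gt), row MON: a character of infinite order on a monothetic subgroup
-/

set_option autoImplicit false

namespace Pool.Agent.CMG.H44

open Pool.Agent.LSG Pool.Agent.CMG
open Set Topology

open scoped Matrix.Norms.L2Operator in
theorem unit_eq_one (n : ℕ) (U : Matrix (Fin n) (Fin n) ℂ)
    (hU : U ∈ Matrix.unitaryGroup (Fin n) ℂ) (hs : spectrum ℂ U ⊆ {1}) : U = 1 := by
  have hn : IsStarNormal U := by
    refine ⟨?_⟩
    have h1 : star U * U = 1 := (Matrix.mem_unitaryGroup_iff').1 hU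
    have h2 : U * star U = 1 := (Matrix.mem_unitaryGroup_iff).1 hU
    show star U * U = U * star U
    rw [h1, h2]
  exact CFC.eq_one_of_spectrum_subset_one (R := ℂ) (p := IsStarNormal) U hs hn

theorem exists_ev (n : ℕ) (A : Matrix (Fin n) (Fin n) ℂ)
    (hA : A ∈ Matrix.unitaryGroup (Fin n) ℂ) (h : ∀ m : ℕ, 0 < m → A ^ m ≠ 1) :
    ∃ α ∈ spectrum ℂ A, ∀ m : ℕ, 0 < m → α ^ m ≠ 1 := by
  by_contra hc
  push Not at hc
  choose! M hM0 hM1 using hc
  have hfin : (spectrum ℂ A).Finite := Matrix.finite_spectrum A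
  let T : ℕ := ∏ α ∈ hfin.toFinset, M α
  have hT : 0 < T := Finset.prod_pos fun α hα => hM0 α (hfin.mem_toFinset.1 hα)
  have hone : ∀ α ∈ spectrum ℂ A, α ^ T = 1 := by
    intro α hα
    obtain ⟨c, hc⟩ : M α ∣ T := Finset.dvd_prod_of_mem M (hfin.mem_toFinset.2 hα)
    rw [hc, pow_mul, hM1 α hα, one_pow]
  apply h T hT
  apply unit_eq_one n (A ^ T) (pow_mem hA T)
  rw [spectrum.map_pow_of_pos A hT]
  rintro _ ⟨α, hα, rfl⟩
  exact hone α hα

theorem exists_vec (n : ℕ) (A : Matrix (Fin n) (Fin n) ℂ) (α : ℂ) (hα : α ∈ spectrum ℂ A) :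
    ∃ v : Fin n → ℂ, v ≠ 0 ∧ A.mulVec v = α • v := by
  rw [← Matrix.spectrum_toLin'] at hα
  have h := (Module.End.hasEigenvalue_iff_mem_spectrum).2 hα
  obtain ⟨v, hv⟩ := h.exists_hasEigenvector
  refine ⟨v, hv.2, ?_⟩
  have := hv.apply_eq_smul
  rwa [Matrix.toLin'_apply] at this

open scoped ComplexOrder in
theorem dot_ne (n : ℕ) (v : Fin n → ℂ) (hv : v ≠ 0) : star v ⬝ᵥ v ≠ 0 :=
  fun h => hv (dotProduct_star_self_eq_zero.1 h)

/-- a unitary matrix preserves the inner product -/
theorem dot_unit (n : ℕ) (U : Matrix (Fin n) (Fin n) ℂ) (hU : U ∈ Matrix.unitaryGroup (Fin n) ℂ)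
    (v : Fin n → ℂ) : star (U.mulVec v) ⬝ᵥ U.mulVec v = star v ⬝ᵥ v := by
  rw [Matrix.star_mulVec, ← Matrix.dotProduct_mulVec, Matrix.mulVec_mulVec]
  have h1 : U.conjTranspose * U = 1 := (Matrix.mem_unitaryGroup_iff').1 hU
  rw [h1, Matrix.one_mulVec]

theorem norm_of_eig (n : ℕ) (U : Matrix (Fin n) (Fin n) ℂ)
    (hU : U ∈ Matrix.unitaryGroup (Fin n) ℂ) (v : Fin n → ℂ) (hv : star v ⬝ᵥ v ≠ 0) (c : ℂ)
    (hc : U.mulVec v = c • v) : ‖c‖ = 1 := by
  have h := dot_unit n U hU v
  rw [hc, star_smul, smul_dotProduct, dotProduct_smul, smul_eq_mul, smul_eq_mul, ← mul_assoc] at h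
  have h2 : star c * c = 1 := by
    have h3 : star c * c * (star v ⬝ᵥ v) = 1 * (star v ⬝ᵥ v) := by rw [h, one_mul]
    exact mul_right_cancel₀ hv h3
  have h4 : ((Complex.normSq c : ℝ) : ℂ) = 1 := by
    rw [Complex.normSq_eq_conj_mul_self]
    exact h2
  have h5 : Complex.normSq c = 1 := by exact_mod_cast h4
  rw [Complex.normSq_eq_norm_sq] at h5
  nlinarith [norm_nonneg c]

/-- Row MON. -/
theorem mon : MonStmt := by
  intro K _ _ _ _ n ρ hρ g hg
  obtain ⟨α, hα, hαm⟩ := exists_ev n (ρ g).1 (ρ g).2 (by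
    intro m hm h
    apply hg m hm
    apply Subtype.ext
    rw [SubmonoidClass.coe_pow]
    exact h)
  obtain ⟨v, hv0, hv⟩ := exists_vec n (ρ g).1 α hα
  have hvv : star v ⬝ᵥ v ≠ 0 := dot_ne n v hv0
  let q : K → ℂ := fun b => (star v ⬝ᵥ ((ρ b).1.mulVec v)) / (star v ⬝ᵥ v)
  have hq : ∀ b : K, ∀ c : ℂ, (ρ b).1.mulVec v = c • v → q b = c := by
    intro b c hc
    show (star v ⬝ᵥ ((ρ b).1.mulVec v)) / (star v ⬝ᵥ v) = c
    rw [hc, dotProduct_smul, smul_eq_mul, mul_div_assoc, div_self hvv, mul_one]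
  have hcont : Continuous fun b : K => (ρ b).1.mulVec v :=
    (continuous_subtype_val.comp hρ).matrix_mulVec continuous_const
  have hqc : Continuous q := by
    have : Continuous fun b : K => star v ⬝ᵥ ((ρ b).1.mulVec v) :=
      Continuous.dotProduct continuous_const hcont
    exact this.div_const _
  let L : Subgroup K :=
    { carrier := {b | (ρ b).1.mulVec v = q b • v}
      mul_mem' := by
        intro a b ha hb
        have ha' : (ρ a).1.mulVec v = q a • v := ha
        have hb' : (ρ b).1.mulVec v = q b • v := hb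
        have h1 : (ρ (a * b)).1.mulVec v = (q b * q a) • v := by
          rw [map_mul]
          show ((ρ a).1 * (ρ b).1).mulVec v = _
          rw [← Matrix.mulVec_mulVec, hb', Matrix.mulVec_smul, ha', smul_smul]
        show (ρ (a * b)).1.mulVec v = q (a * b) • v
        rw [hq _ _ h1, h1]
      one_mem' := by
        have h1 : (ρ (1 : K)).1.mulVec v = (1 : ℂ) • v := by
          rw [map_one, one_smul]
          show (1 : Matrix (Fin n) (Fin n) ℂ).mulVec v = v
          rw [Matrix.one_mulVec]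
        show (ρ (1 : K)).1.mulVec v = q 1 • v
        rw [hq _ _ h1, h1]
      inv_mem' := by
        intro a ha
        have ha' : (ρ a).1.mulVec v = q a • v := ha
        have hqa : q a ≠ 0 := by
          have := norm_of_eig n _ (ρ a).2 v hvv _ ha'
          intro h0
          rw [h0, norm_zero] at this
          exact zero_ne_one this
        have h1 : (ρ a⁻¹).1.mulVec v = (q a)⁻¹ • v := by
          have e : (ρ a⁻¹).1.mulVec ((ρ a).1.mulVec v) = v := by
            rw [Matrix.mulVec_mulVec]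
            have : (ρ a⁻¹).1 * (ρ a).1 = 1 := by
              have h2 : ρ a⁻¹ * ρ a = 1 := by rw [← map_mul, inv_mul_cancel, map_one]
              exact Subtype.ext_iff.1 h2
            rw [this, Matrix.one_mulVec]
          rw [ha', Matrix.mulVec_smul] at e
          rw [← e, smul_smul, inv_mul_cancel₀ hqa, one_smul]
          rw [e]
        show (ρ a⁻¹).1.mulVec v = q a⁻¹ • v
        rw [hq _ _ h1, h1] }
  have hLc : IsClosed (L : Set K) := isClosed_eq hcont (hqc.smul continuous_const)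
  have hgL : g ∈ L := by
    show (ρ g).1.mulVec v = q g • v
    rw [hq _ _ hv, hv]
  have hBL : (Subgroup.zpowers g).topologicalClosure ≤ L :=
    Subgroup.topologicalClosure_minimal _ ((Subgroup.zpowers_le).2 hgL) hLc
  have hnorm : ∀ b ∈ L, ‖q b‖ = 1 := fun b hb => norm_of_eig n _ (ρ b).2 v hvv _ hb
  have hqmul : ∀ a ∈ L, ∀ b ∈ L, q (a * b) = q a * q b := by
    intro a ha b hb
    have ha' : (ρ a).1.mulVec v = q a • v := ha
    have hb' : (ρ b).1.mulVec v = q b • v := hb
    apply hq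
    rw [map_mul]
    show ((ρ a).1 * (ρ b).1).mulVec v = _
    rw [← Matrix.mulVec_mulVec, hb', Matrix.mulVec_smul, ha', smul_smul, mul_comm]
  let B : Subgroup K := (Subgroup.zpowers g).topologicalClosure
  have hgB : g ∈ B := Subgroup.le_topologicalClosure _ (Subgroup.mem_zpowers g)
  have hcomm : ∀ a b : B, a * b = b * a := by
    intro a b
    have hs : ∀ x y : Subgroup.zpowers g, x * y = y * x := by
      rintro ⟨_, i, rfl⟩ ⟨_, j, rfl⟩
      apply Subtype.ext
      exact zpow_mul_comm g i j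
    exact (Subgroup.commGroupTopologicalClosure (Subgroup.zpowers g) hs).mul_comm a b
  let χ : B →ₜ* Circle :=
    { toFun := fun b => ⟨q b.1, mem_sphere_zero_iff_norm.2 (hnorm b.1 (hBL b.2))⟩
      map_one' := by
        apply Subtype.ext
        show q 1 = 1
        apply hq
        rw [map_one, one_smul]
        show (1 : Matrix (Fin n) (Fin n) ℂ).mulVec v = v
        rw [Matrix.one_mulVec]
      map_mul' := by
        intro a b
        apply Subtype.ext
        exact hqmul a.1 (hBL a.2) b.1 (hBL b.2)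
      continuous_toFun := by
        apply Continuous.subtype_mk
        exact hqc.comp continuous_subtype_val }
  refine ⟨B, Subgroup.isClosed_topologicalClosure _, hcomm, χ, fun m hm => ⟨⟨g, hgB⟩, ?_⟩⟩
  intro h
  apply hαm m hm
  have h2 : ((χ ⟨g, hgB⟩ ^ m : Circle) : ℂ) = 1 := by rw [h]; rfl
  rw [Circle.coe_pow] at h2
  have h3 : ((χ ⟨g, hgB⟩ : Circle) : ℂ) = α := hq g α hv
  rwa [h3] at h2

end Pool.Agent.CMG.H44
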